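import Pool.Agent.V11260.FW

/-!
# Weighted level of distribution `1 - ε` for the residues near `t α + s`, for almost every `α` of a set of positive
Fourier dimension: divisor-bounded weights, and heights which depend on the modulus

Let `ν` be any probability measure on `[-B, B]` whose Fourier transform decays like some power, with an arbitrarily small
exponent `σ > 0`. For `ν`-almost every `α` and all but finitely many `j`, for ALL the residues `a > 0` at a distance of at
most `log ^ A (t j)` from `t j α + s j`, the primes up to `B t j` have the level of distribution `1 - ε` in the class of `a`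
with respect to at most `log ^ T (t j)` given systems of weights `|λ(m)| ≤ (τ(m) log (t j)) ^ T` (for instance
`|λ(m)| ≤ 3 ^ ν(m)`) and of heights `x(m) ≤ B t j`.

From Mathlib: `ArithmeticFunction.vonMangoldt`: the function `Λ`; `Nat.totient`: Euler's function; `charFun ν`: the
characteristic function `ξ ↦ ∫ exp (i ξ α) dν(α)`.
-/

set_option autoImplicit false

namespace Pool.Agent.Results.MP_188a10_nt.FourierDecayWeights

open MeasureTheory Finset

/-- `E(x; m, a) = ψ(x; m, a) - x / φ(m)`, where `ψ(x; m, a)` is the sum of `Λ(n)` over the `n ≤ x` with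
`n ≡ a (mod m)`. -/
noncomputable def E (x m a : ℕ) : ℝ :=
  ∑ n ∈ (Icc 1 x).filter (fun n : ℕ => n ≡ a [MOD m]), ArithmeticFunction.vonMangoldt n - (x : ℝ) / Nat.totient m

/-- `τ(m)`: the number of the divisors of `m`. In particular `τ(m) ^ 2 ≥ 3 ^ ν(m)`, where `ν(m)` is the number of
the prime factors of `m`. -/
noncomputable def τ (m : ℕ) : ℝ := m.divisors.card

/-- The sum of `λ(m) E(x(m); m, a)` over the `m ≤ Q` coprime to `a`. -/
noncomputable def weighted (lam : ℕ → ℝ) (x : ℕ → ℕ) (Q a : ℕ) : ℝ :=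
  ∑ m ∈ (Icc 1 Q).filter (fun m : ℕ => a.Coprime m), lam m * E (x m) m a

/-- Let `ν` be a probability measure on `[-B, B]` with `|ν^(ξ)| ≤ C |ξ| ^ (-σ)` for `|ξ| ≥ 1` and some `C` and `σ > 0`.
Let `t j ≥ 2` and `|s j| ≤ B t j` be real numbers, where `j` ranges over a set `J`, such that the sum of the
`1 / log ^ V (t j)` converges for some `V`. Let `ε > 0`, and for every `j` let at most `log ^ T (t j)` systems of real
weights `λ(m)` with `|λ(m)| ≤ (τ(m) log (t j)) ^ T` and of heights `y(m) ≤ B t j` be given. Then for `ν`-almost every `α`,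
for all `A` and `U` and for all but finitely many `j`, ALL the integers `a > 0` with
`|a - (t j α + s j)| ≤ log ^ A (t j)` have the following property for all these systems: the sum of `λ(m) E(x; m, a)` over
the `m ≤ (t j) ^ (1 - ε)` coprime to `a` has absolute value at most `t j / log ^ U (t j)`, for ALL `x ≤ B t j`, and so has
the sum of `λ(m) E(y(m); m, a)`. -/
theorem result (ν : Measure ℝ) [IsProbabilityMeasure ν] (B : ℝ) (hB : 0 < B) (hν : ∀ᵐ α ∂ν, |α| ≤ B)
    (C σ : ℝ) (hσ : 0 < σ) (hdec : ∀ ξ : ℝ, 1 ≤ |ξ| → ‖charFun ν ξ‖ ≤ C * |ξ| ^ (-σ))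
    (J : Type) (t s : J → ℝ) (ht : ∀ j, 2 ≤ t j) (hs : ∀ j, |s j| ≤ B * t j)
    (hsum : ∃ V : ℕ, Summable fun j => 1 / Real.log (t j) ^ V) (ε : ℝ) (hε : 0 < ε)
    (T : ℕ) (L : J → ℕ) (hL : ∀ j, (L j : ℝ) ≤ Real.log (t j) ^ T)
    (lam : (j : J) → Fin (L j) → ℕ → ℝ) (hlam : ∀ j l m, |lam j l m| ≤ (τ m * Real.log (t j)) ^ T)
    (y : (j : J) → Fin (L j) → ℕ → ℕ) (hy : ∀ j l m, (y j l m : ℝ) ≤ B * t j) :
    ∀ᵐ α ∂ν, ∀ A U : ℕ,
      {j | ¬ ∀ a : ℕ, 0 < a → |(a : ℝ) - (t j * α + s j)| ≤ Real.log (t j) ^ A → ∀ l,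
        (∀ x : ℕ, (x : ℝ) ≤ B * t j →
          |weighted (lam j l) (fun _ => x) ⌊t j ^ (1 - ε)⌋₊ a| ≤ t j / Real.log (t j) ^ U) ∧
        |weighted (lam j l) (y j l) ⌊t j ^ (1 - ε)⌋₊ a| ≤ t j / Real.log (t j) ^ U}.Finite := by
  obtain ⟨V, hV⟩ := hsum
  have h := Pool.Agent.V11260.FW.heavy_ae B C σ hB hσ ε hε ν hdec hν t s ht V hV hs T L hL
    (fun j l => if hl : l < L j then lam j ⟨l, hl⟩ else fun _ => 0) (by
    intro j l hl q
    simp only [hl, dif_pos]
    refine (hlam j _ q).trans (le_of_eq ?_)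
    rw [mul_pow, mul_comm]
    rfl)
    (fun j l => if hl : l < L j then y j ⟨l, hl⟩ else fun _ => 0) (by
    intro j l hl q
    simp only [hl, dif_pos]
    exact hy j _ q)
  filter_upwards [h] with α hα A U
  refine (hα A U).subset ?_
  intro j hj hall
  apply hj
  intro a ha hm l
  obtain ⟨h1, h2⟩ := hall a ha hm l l.2
  simp only [l.2, dif_pos] at h1 h2
  exact ⟨h1, h2⟩

end Pool.Agent.Results.MP_188a10_nt.FourierDecayWeights
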