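import Pool.Agent.V11265.LN1
import Pool.Agent.V11312.PW.Zero

/-!
# Weighted level of distribution beyond one half for all the residues near almost every `p`-adic point

Let `α < 14 / 27` and `κ ≥ 1` (`κ = 3` in the problem), `p_1, …, p_r` primes. For all points `x` of the product of the rings
`ℤ_(p_l)` outside a set of Hausdorff dimension ZERO and all `σ > 0` the positive integers `a` with `|a - x_l| ≤ a ^ (-σ)` in
`ℤ_(p_l)` for all `l` (the `a` in the class of `x_l` modulo a power of `p_l` of size at least `a ^ σ`; `σ` may be arbitrarily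
small) are good residues at the level `α` with the weights `κ ^ ν(d)`: in the whole range `a ≤ N ≤ exp (a ^ δ)`, and with the
maximum over `(log N) ^ T` of them inside the sum over `d`.
-/

set_option autoImplicit false

open Finset Filter

namespace Pool.Agent.Results.MP_188a10_nt.ResiduesNearPoints

open Pool.Agent.Results.MP_188a10_nt.WeightedFewExceptional (EMax nuD)
open Pool.Agent.V11312.PW

/-- the weighted sum over the `d ≤ N ^ α` coprime to `a` -/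
noncomputable def levelSum (κ α : ℝ) (N a : ℕ) : ℝ :=
  ∑ d ∈ (Icc 1 ⌊(N : ℝ) ^ α⌋₊).filter (fun d => Nat.Coprime a d), κ ^ nuD d * EMax N d a

/-- the weighted sum over the `d ≤ N ^ α` of the maximum over the residues `a ∈ A` coprime to `d` -/
noncomputable def maxInside (κ α : ℝ) (N : ℕ) (A : Finset ℕ) : ℝ :=
  ∑ d ∈ Icc 1 ⌊(N : ℝ) ^ α⌋₊, κ ^ nuD d * ⨆ a : {a : ℕ // a ∈ A ∧ Nat.Coprime a d}, EMax N d a

/-- the pointwise statement, for one set of dimension zero -/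
theorem pointwise {r : ℕ} (p : Fin r → ℕ) [∀ l, Fact (p l).Prime] :
    ∃ E : Set (∀ l, ℤ_[p l]), dimH E = 0 ∧ ∀ x ∉ E, ∀ σ : ℝ, 0 < σ → ∀ κ : ℝ, 1 ≤ κ → ∀ α : ℝ, α < 14 / 27 →
      ∀ U : ℕ, ∃ δ : ℝ, 0 < δ ∧ ∃ a₀ : ℕ, ∀ a : ℕ, a₀ ≤ a → NearPoint p σ x a →
        ∀ N : ℕ, a ≤ N → (N : ℝ) ≤ Real.exp ((a : ℝ) ^ δ) →
          Pool.Agent.V11265.LN.Sum κ α N a ≤ N / Real.log N ^ U := by
  set Q : Type := ℕ × {r : ℚ // 0 ≤ (r : ℝ) ∧ (r : ℝ) < 14 / 27} × ℕ with hQ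
  have hD : ∀ q : Q, ∃ D : ℕ, ∀ δ η : ℝ, 0 < δ → δ * D ≤ η → ∃ C : ℝ, ∀ X : ℝ, 1 ≤ X →
      {a | a ∈ Pool.Agent.V11265.LN.Bad (q.1 + 1) (q.2.1.1 : ℝ) q.2.2 δ ∧ (a : ℝ) ≤ X}.Finite ∧
        ({a | a ∈ Pool.Agent.V11265.LN.Bad (q.1 + 1) (q.2.1.1 : ℝ) q.2.2 δ ∧ (a : ℝ) ≤ X}.ncard : ℝ) ≤ C * X ^ η :=
    fun q => Pool.Agent.V11265.LN.bad_count (by linarith [(Nat.cast_nonneg q.1 : (0 : ℝ) ≤ q.1)]) q.2.1.2.1
      q.2.1.2.2 q.2.2
  choose D hD' using hD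
  set del : Q → ℕ → ℝ := fun q j => 1 / (((j : ℝ) + 1) * ((D q : ℝ) + 1)) with hdel
  have hdel0 : ∀ q j, 0 < del q j := fun q j => by
    simp only [hdel]
    positivity
  obtain ⟨E, hE0, hE⟩ := zero_classes (Q := Q)
    (fun q j => Pool.Agent.V11265.LN.Bad (q.1 + 1) (q.2.1.1 : ℝ) q.2.2 (del q j)) (fun q j => by
      obtain ⟨C, hC⟩ := hD' q (del q j) (1 / ((j : ℝ) + 1)) (hdel0 q j) (by
        simp only [hdel]
        rw [one_div_mul_eq_div, div_le_div_iff₀ (by positivity) (by positivity)]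
        nlinarith [(Nat.cast_nonneg (D q) : (0 : ℝ) ≤ D q), (Nat.cast_nonneg j : (0 : ℝ) ≤ j)])
      exact ⟨C, fun X hX => (hC X hX).2⟩) p
  refine ⟨E, hE0, fun x hx σ hσ κ hκ α hα U => ?_⟩
  obtain ⟨r', hr1, hr2⟩ := exists_rat_btwn (show max α 0 < 14 / 27 from max_lt hα (by norm_num))
  have hr0 : 0 ≤ (r' : ℝ) := (le_max_right _ _).trans hr1.le
  set q : Q := (⌈κ⌉₊, ⟨r', hr0, hr2⟩, U) with hq
  obtain ⟨j, a₀, hj⟩ := hE x hx q σ hσ
  refine ⟨del q j, hdel0 q j, max a₀ 2, fun a ha hnear N haN hN => ?_⟩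
  by_contra hcon
  push Not at hcon
  have ha2 : 2 ≤ a := (le_max_right _ _).trans ha
  refine hj a ((le_max_left _ _).trans ha) hnear ⟨by omega, N, haN, hN, hcon.trans_le ?_⟩
  refine Pool.Agent.V11265.LN.Sum_mono hκ ?_ ((le_max_left _ _).trans hr1.le) hr0 (by omega) le_rfl a
  have := Nat.le_ceil κ
  show κ ≤ (⌈κ⌉₊ : ℝ) + 1
  linarith

/-- **Weighted level of distribution `14/27` for all residues near points.** For all points `x` of the product of the `ℤ_(p_l)`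
outside a set of Hausdorff dimension zero, all `σ > 0`, `κ ≥ 1` and `α < 14/27`:
(1) for every `U` there is `δ > 0` such that all large integers `a` with `|a - x_l| ≤ a ^ (-σ)` in `ℤ_(p_l)` for all `l` and all
`N` with `a ≤ N ≤ exp (a ^ δ)` satisfy
`∑_{d ≤ N ^ α, (a, d) = 1} κ ^ ν(d) max_{y ≤ N} |π(y; d, a) - li(y) / φ(d)| ≤ N / (log N) ^ U`;
(2) for all `T`, `U` there is `K` such that for all large `N` and all sets `A` of at most `(log N) ^ T` such integers `a`, with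
`(log N) ^ K ≤ a ≤ N`:
`∑_{d ≤ N ^ α} κ ^ ν(d) max_{a ∈ A, (a, d) = 1} max_{y ≤ N} |π(y; d, a) - li(y) / φ(d)| ≤ N / (log N) ^ U`. -/
theorem result (r : ℕ) (p : Fin r → ℕ) [∀ l, Fact (p l).Prime] :
    ∃ E : Set (∀ l, ℤ_[p l]), dimH E = 0 ∧ ∀ x ∉ E, ∀ σ : ℝ, 0 < σ → ∀ κ : ℝ, 1 ≤ κ → ∀ α : ℝ, α < 14 / 27 →
      (∀ U : ℕ, ∃ δ : ℝ, 0 < δ ∧ ∃ a₀ : ℕ, ∀ a : ℕ, a₀ ≤ a → NearPoint p σ x a →
        ∀ N : ℕ, a ≤ N → (N : ℝ) ≤ Real.exp ((a : ℝ) ^ δ) → levelSum κ α N a ≤ N / Real.log N ^ U) ∧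
      ∀ T U : ℕ, ∃ K : ℝ, 0 < K ∧ ∃ N₀ : ℕ, ∀ N : ℕ, N₀ ≤ N → ∀ A : Finset ℕ,
        (∀ a ∈ A, Real.log N ^ K ≤ a ∧ a ≤ N ∧ NearPoint p σ x a) → (A.card : ℝ) ≤ Real.log N ^ T →
          maxInside κ α N A ≤ N / Real.log N ^ U := by
  classical
  obtain ⟨E, hE0, hE⟩ := pointwise p
  refine ⟨E, hE0, fun x hx σ hσ κ hκ α hα => ⟨hE x hx σ hσ κ hκ α hα, fun T U => ?_⟩⟩
  obtain ⟨δ, hδ, a₀, ha₀⟩ := hE x hx σ hσ κ hκ α hα (U + T)
  refine ⟨1 / δ, by positivity, ?_⟩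
  have hlim : Tendsto (fun N : ℕ => Real.log N ^ (1 / δ)) atTop atTop :=
    (tendsto_rpow_atTop (by positivity)).comp (Real.tendsto_log_atTop.comp tendsto_natCast_atTop_atTop)
  obtain ⟨N₁, hN₁⟩ := (hlim.eventually_ge_atTop (a₀ : ℝ)).exists_forall_of_atTop
  refine ⟨max N₁ 3, fun N hN A hA hcard => ?_⟩
  have hN3 : 3 ≤ N := (le_max_right _ _).trans hN
  have hlog : 0 < Real.log N := Real.log_pos (by exact_mod_cast (by omega : 1 < N))
  have hpt : ∀ a ∈ A, Pool.Agent.V11265.LN.Sum κ α N a ≤ N / Real.log N ^ (U + T) := by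
    intro a ha
    obtain ⟨h1, h2, h3⟩ := hA a ha
    refine ha₀ a ?_ h3 N h2 ?_
    · exact_mod_cast (hN₁ N ((le_max_left _ _).trans hN)).trans h1
    · have h4 : Real.log N ≤ (a : ℝ) ^ δ := by
        have h5 := Real.rpow_le_rpow (by positivity) h1 hδ.le
        rw [← Real.rpow_mul hlog.le, one_div_mul_cancel hδ.ne', Real.rpow_one] at h5
        exact h5
      rw [← Real.log_le_iff_le_exp (by exact_mod_cast (by omega : 0 < N))]
      exact h4
  unfold maxInside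
  calc ∑ d ∈ Icc 1 ⌊(N : ℝ) ^ α⌋₊, κ ^ nuD d * ⨆ a : {a : ℕ // a ∈ A ∧ Nat.Coprime a d}, EMax N d a
      ≤ ∑ d ∈ Icc 1 ⌊(N : ℝ) ^ α⌋₊, ∑ a ∈ A, if Nat.Coprime a d then κ ^ nuD d * EMax N d a else 0 := by
        refine Finset.sum_le_sum fun d _ => ?_
        have hk : 0 < κ ^ nuD d := pow_pos (by linarith) _
        have hnn : ∀ a ∈ A, 0 ≤ (if Nat.Coprime a d then κ ^ nuD d * EMax N d a else 0) := fun a _ => by
          split_ifs
          · exact Pool.Agent.V11265.LN.term_nonneg hκ _ _ _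
          · exact le_rfl
        rw [← le_div_iff₀' hk]
        refine Real.iSup_le (fun a => ?_) (div_nonneg (Finset.sum_nonneg hnn) hk.le)
        rw [le_div_iff₀' hk]
        refine le_trans (le_of_eq ?_) (Finset.single_le_sum hnn a.2.1)
        rw [if_pos a.2.2]
    _ = ∑ a ∈ A, Pool.Agent.V11265.LN.Sum κ α N a := by
        rw [Finset.sum_comm]
        refine Finset.sum_congr rfl fun a _ => ?_
        unfold Pool.Agent.V11265.LN.Sum
        rw [Finset.sum_filter]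
    _ ≤ A.card * (N / Real.log N ^ (U + T)) := by
        refine (Finset.sum_le_card_nsmul _ _ _ hpt).trans (le_of_eq (nsmul_eq_mul _ _))
    _ ≤ Real.log N ^ T * (N / Real.log N ^ (U + T)) :=
        mul_le_mul_of_nonneg_right hcard (by positivity)
    _ = N / Real.log N ^ U := by
        rw [pow_add]
        field_simp

end Pool.Agent.Results.MP_188a10_nt.ResiduesNearPoints
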