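import Pool.Agent.V11113.MR.Lev
import Pool.Agent.V11113.MR.BilFam

/-!
# Weighted level of distribution in the residue classes of the members of thin families

The families are the families of the numbers `c + v i`, where `v i` runs through the least residues modulo `m` (an arbitrary
integer) of residues with exponential sums `O(#s m ^ (-δ))`, with an arbitrarily small `δ > 0` (`Small`). Examples (part (2)):
the values `x · Q y + f(x) + g(y)` modulo a prime `p` at the pairs of vectors of two arbitrary sets with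
`#A #A' ≥ p ^ (d + 2 δ)`; for `d = 1` this contains the products of the elements of two arbitrary sets with
`#A #A' ≥ p ^ (1 + 2 δ)`. Nothing else is assumed about the families; they may have as few as about `m ^ (2 δ)` different
members.

From the starting files: primes in residue classes for laws of random integers (`Pool.Agent.W93.LV`) and the passage from
bounded weights to divisor-bounded weights (`Pool.Agent.TH872.GQ`). New: the families of residues, `Pool.Agent.V11113.MR`.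

From Mathlib: `ArithmeticFunction.vonMangoldt`: the function `Λ`; `Nat.totient`: Euler's function.
-/

set_option autoImplicit false

namespace Pool.Agent.Results.MP_188a10_nt.ThinFamilies

open Finset Matrix

/-- The exponential sums over the family `v i ∈ ℤ / m`, `i ∈ s`, at all nonzero frequencies are at most `#s m ^ (-δ)`.
(`ZMod.stdAddChar` is the character `e(x / m)`.) -/
def Small (m : ℕ) [NeZero m] (δ : ℝ) {ι : Type} (s : Finset ι) (v : ι → ZMod m) : Prop :=
  ∀ b : ZMod m, b ≠ 0 → ‖∑ x ∈ s, (ZMod.stdAddChar (b * v x) : ℂ)‖ ≤ s.card * (m : ℝ) ^ (-δ)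

/-- families of values of bilinear forms -/
theorem small_bil (p : ℕ) [NeZero p] (hp : p.Prime) (δ : ℝ) (d : ℕ) (A A' : Finset (Fin d → ZMod p))
    (Q : Matrix (Fin d) (Fin d) (ZMod p)) (hQ : IsUnit Q.det) (h : (p : ℝ) ^ (d + 2 * δ) ≤ A.card * A'.card)
    (f g : (Fin d → ZMod p) → ZMod p) : Small p δ (A ×ˢ A') (fun z => z.1 ⬝ᵥ Q.mulVec z.2 + f z.1 + g z.2) := by
  have : Fact p.Prime := ⟨hp⟩
  exact fun b hb => Pool.Agent.V11113.MR.bil_small δ p d A A' Q hQ f g h b hb

/-- `E(x; d, a) = ψ(x; d, a) - x / φ(d)`, where `ψ(x; d, a)` is the sum of `Λ(n)` over the `n ≤ x` with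
`n ≡ a (mod d)`. -/
noncomputable def E (x d a : ℕ) : ℝ :=
  ∑ n ∈ (Icc 1 x).filter (fun n : ℕ => n ≡ a [MOD d]), ArithmeticFunction.vonMangoldt n - (x : ℝ) / Nat.totient d

/-- `τ(d)`: the number of the divisors of `d`. In particular `τ(d) ^ 2 ≥ 3 ^ ν(d)`, where `ν(d)` is the number of
the prime factors of `d`. -/
noncomputable def τ (d : ℕ) : ℝ := d.divisors.card

/-- The sum of `λ(d) E(x(d); d, a)` over the `d ≤ Q` coprime to `a`. -/
noncomputable def weighted (lam : ℕ → ℝ) (x : ℕ → ℕ) (Q a : ℕ) : ℝ :=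
  ∑ d ∈ (Icc 1 Q).filter (fun d : ℕ => a.Coprime d), lam d * E (x d) d a

open Classical in
/-- Let `b`, `T`, `U`, `δ > 0` and `ε > 0` be fixed.

(1) Let `m` be large, `Q = m ^ (1 - ε)`, let `v i ∈ ℤ / m`, `i ∈ s`, be an ARBITRARY finite family with exponential sums at
most `#s m ^ (-δ)`, let `c` be an integer with `|c| ≤ b m`, and let `a i = c + (least residue of v i)`.

For arbitrary coefficients `λ(d)` with `|λ(d)| ≤ (τ(d) log m) ^ T` (e.g. `|λ(d)| ≤ 3 ^ ν(d)`, if `T = 2`) all but at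
most `#s / log ^ U m` of the `i ∈ s` with `a i > 0` satisfy: the sum of `λ(d) E(x; d, a i)` over the `d ≤ Q`
coprime to `a i` is at most `m / log ^ U m` in absolute value, for ALL `x ≤ b m`. The same holds for the sums of
`λ(d) E(x(d); d, a i)`, if `x(d) ≤ b m` is an arbitrary function of the modulus.

For arbitrary coefficients `|w(i)| ≤ log ^ T m` and arbitrary `x(d) ≤ b m`, the sum over ALL `d ≤ Q` of `τ(d) ^ T` times
the ABSOLUTE VALUE of the sum of `w(i) E(x(d); d, a i)`, over the `i` for which `a i` is positive and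
coprime to `d`, is at most `#s m / log ^ U m`.

(2) Let `p` be a prime, `d` arbitrary, let `A` and `A'` be arbitrary sets of vectors modulo `p` with
`#A #A' ≥ p ^ (d + 2 δ)`, let `Q` be an invertible matrix and let `f` and `g` be arbitrary functions. Then the family
`x · Q y + f(x) + g(y)`, `x ∈ A`, `y ∈ A'`, has exponential sums at most `#A #A' p ^ (-δ)`. -/
theorem result (b T U : ℕ) (δ : ℝ) (hδ : 0 < δ) (ε : ℝ) (hε : 0 < ε) :
    (∃ m₀ : ℕ, ∀ (m : ℕ) [NeZero m], m₀ ≤ m → ∀ Q : ℕ, Q = ⌊(m : ℝ) ^ (1 - ε)⌋₊ →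
      ∀ (ι : Type) (s : Finset ι) (v : ι → ZMod m), Small m δ s v → ∀ c : ℤ, |c| ≤ b * m →
      (∀ lam : ℕ → ℝ, (∀ d, |lam d| ≤ (τ d * Real.log m) ^ T) →
        ((s.filter fun i => 0 < c + ((v i).val : ℤ) ∧ ∃ x : ℕ, x ≤ b * m ∧
          m / Real.log m ^ U < |weighted lam (fun _ => x) Q (c + ((v i).val : ℤ)).toNat|).card : ℝ) ≤
          s.card / Real.log m ^ U ∧
        ∀ x : ℕ → ℕ, (∀ d, x d ≤ b * m) →
        ((s.filter fun i => 0 < c + ((v i).val : ℤ) ∧
          m / Real.log m ^ U < |weighted lam x Q (c + ((v i).val : ℤ)).toNat|).card : ℝ) ≤ s.card / Real.log m ^ U) ∧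
      (∀ w : ι → ℝ, (∀ i, |w i| ≤ Real.log m ^ T) → ∀ x : ℕ → ℕ, (∀ d, x d ≤ b * m) →
        ∑ d ∈ Icc 1 Q, τ d ^ T * |∑ i ∈ s.filter (fun i => 0 < c + ((v i).val : ℤ) ∧
          (c + ((v i).val : ℤ)).toNat.Coprime d), w i * E (x d) d (c + ((v i).val : ℤ)).toNat| ≤
          s.card * (m / Real.log m ^ U))) ∧
    (∀ (p : ℕ) [NeZero p], p.Prime → ∀ (d : ℕ) (A A' : Finset (Fin d → ZMod p)) (Q : Matrix (Fin d) (Fin d) (ZMod p)),
      IsUnit Q.det → (p : ℝ) ^ (d + 2 * δ) ≤ A.card * A'.card → ∀ f g : (Fin d → ZMod p) → ZMod p,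
      Small p δ (A ×ˢ A') (fun z => z.1 ⬝ᵥ Q.mulVec z.2 + f z.1 + g z.2)) := by
  refine ⟨?_, fun p _ hp d A A' Q hQ h f g => small_bil p hp δ d A A' Q hQ h f g⟩
  obtain ⟨m₀, h⟩ := Pool.Agent.V11113.MR.heavy_res b δ hδ T U ε hε
  refine ⟨m₀, fun m _ hm Q hQ ι s v hv c hc => ?_⟩
  obtain ⟨h1, h2⟩ := h m hm ι s v hv c hc
  rw [← hQ] at h2
  simp only [← hQ] at h1
  refine ⟨fun lam hlam => ?_, fun w hw x hx => ?_⟩
  · obtain ⟨r1, r2⟩ := h1 lam hlam
    exact ⟨by convert r1 <;> rfl, fun x hx => by convert r2 x hx <;> rfl⟩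
  · convert h2 w hw x hx <;> rfl

end Pool.Agent.Results.MP_188a10_nt.ThinFamilies
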