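import Pool.Agent.V11265.LN1

/-!
# Weighted level of distribution beyond one half for all the residues near powers

Let `ν n / log n → ∞`, for example `ν n = n` or `ν n = n !`, `α < 14 / 27` and `κ ≥ 1` (`κ = 3` in the problem). For
all real `z > 1` outside a set of Hausdorff dimension zero and all `θ < 1` the integers `a` with
`|a - β z ^ (ν n)| ≤ z ^ (θ ν n)` for some `n` are good residues at the level `α` with the weights `κ ^ ν(d)`: in the
whole range `a ≤ N ≤ exp (a ^ δ)`, and with the maximum over `(log N) ^ T` of them inside the sum over `d`.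
-/

set_option autoImplicit false

open Finset Filter

namespace Pool.Agent.Results.MP_188a10_nt.WeightedNearPowers

open Pool.Agent.Results.MP_188a10_nt.WeightedFewExceptional (EMax nuD)

/-- the weighted sum over the `d ≤ N ^ α` coprime to `a` -/
noncomputable def levelSum (κ α : ℝ) (N a : ℕ) : ℝ :=
  ∑ d ∈ (Icc 1 ⌊(N : ℝ) ^ α⌋₊).filter (fun d => Nat.Coprime a d), κ ^ nuD d * EMax N d a

/-- the weighted sum over the `d ≤ N ^ α` of the maximum over the residues `a ∈ A` coprime to `d` -/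
noncomputable def maxInside (κ α : ℝ) (N : ℕ) (A : Finset ℕ) : ℝ :=
  ∑ d ∈ Icc 1 ⌊(N : ℝ) ^ α⌋₊, κ ^ nuD d * ⨆ a : {a : ℕ // a ∈ A ∧ Nat.Coprime a d}, EMax N d a

/-- the integer `a` is in the window of length `2 z ^ (θ ν n)` around `β z ^ (ν n)`, for some `n` -/
def Near (ν : ℕ → ℝ) (θ β z : ℝ) (a : ℕ) : Prop := ∃ n : ℕ, |(a : ℝ) - β * z ^ ν n| ≤ z ^ (θ * ν n)

/-- **Weighted level of distribution `14/27` for all residues near powers.** Let `ν n / log n → ∞` and let `B` be a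
countable set of real numbers. For all `z > 1` outside a set of Hausdorff dimension zero, all `θ < 1`, `κ ≥ 1` and
`α < 14/27`:
(1) for every `U` there is `δ > 0` such that for every positive `β` in `B` all large integers `a` with
`|a - β z ^ (ν n)| ≤ z ^ (θ ν n)` for some `n` and all `N` with `a ≤ N ≤ exp (a ^ δ)` satisfy
`∑_{d ≤ N ^ α, (a, d) = 1} κ ^ ν(d) max_{y ≤ N} |π(y; d, a) - li(y) / φ(d)| ≤ N / (log N) ^ U`;
(2) for all `T`, `U` there is `K` such that for every positive `β` in `B`, all large `N` and all sets `A` of at most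
`(log N) ^ T` such integers `a`, with `(log N) ^ K ≤ a ≤ N`:
`∑_{d ≤ N ^ α} κ ^ ν(d) max_{a ∈ A, (a, d) = 1} max_{y ≤ N} |π(y; d, a) - li(y) / φ(d)| ≤ N / (log N) ^ U`. -/
theorem result (ν : ℕ → ℝ) (hν : Tendsto (fun n : ℕ => ν n / Real.log n) atTop atTop) (B : Set ℝ)
    (hB : B.Countable) :
    ∃ E : Set ℝ, dimH E = 0 ∧ ∀ z : ℝ, 1 < z → z ∉ E → ∀ θ : ℝ, θ < 1 → ∀ κ : ℝ, 1 ≤ κ → ∀ α : ℝ, α < 14 / 27 →
      (∀ U : ℕ, ∃ δ : ℝ, 0 < δ ∧ ∀ β ∈ B, 0 < β → ∃ a₀ : ℕ, ∀ a : ℕ, a₀ ≤ a → Near ν θ β z a →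
        ∀ N : ℕ, a ≤ N → (N : ℝ) ≤ Real.exp ((a : ℝ) ^ δ) → levelSum κ α N a ≤ N / Real.log N ^ U) ∧
      ∀ T U : ℕ, ∃ K : ℝ, 0 < K ∧ ∀ β ∈ B, 0 < β → ∃ N₀ : ℕ, ∀ N : ℕ, N₀ ≤ N → ∀ A : Finset ℕ,
        (∀ a ∈ A, Real.log N ^ K ≤ a ∧ a ≤ N ∧ Near ν θ β z a) → (A.card : ℝ) ≤ Real.log N ^ T →
          maxInside κ α N A ≤ N / Real.log N ^ U :=
  Pool.Agent.V11265.LN.inside (ν := ν) hν B hB

end Pool.Agent.Results.MP_188a10_nt.WeightedNearPowers
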